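import Pool.Agent.SGE.Stmts

/-!
# Squad SGK (MP_41797f_co): a planar graph with `n` vertices and a planar graph with `k ≤ n / 6` vertices

RESULT (`MainStmt`): for `k ≤ n`, `6 k ≤ n + 7`, every planar graph `G₁` on `n` vertices and EVERY planar
graph `G₂` on `k` vertices have an SGE-nomap (known: `k ≤ √(n / 2)`).

IDEA.  A canonical sequence `S` gives two orders: `HX` (generated by `L_v → v → R_v`) and `HY` (generated
by lower neighbour `→ v`).  For all linear extensions of the two orders the graph is drawn on the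
exploding point set (`NcxStmt`, `ExpStmt` of squad SGE).  On the vertices which are neither left nor
right ends the two orders are conjugate (`ZonStmt`), so that these vertices can be put on an exploding
point set with ANY permutation (`CnjStmt`), for example on the one of `G₂`.  There are at least
`(n + 2) / 6` such vertices for a suitable one of three canonical sequences (`RotStmt`, `Co3Stmt`).

Every row: file `Pool/Agent/HelperNN_SGK/XXX.lean`, import `Pool.Agent.SGK.Stmts`, namespace
`Pool.Agent.SGK.HNN`, theorem `xxx (hypotheses = rows in uses, in this order) : XxxStmt`.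
Rows of squad SGE which may be imported: `Helper29_SGE/Cb.lean` (CB), `Helper20_SGE/Int.lean` (INT),
`Helper32_SGE/Ncx.lean` (NCX), `Helper56_SGE/EXP.lean` (EXP), `Helper25_SGE/Cou.lean` (COU),
`Helper29_SGE/Geo.lean`, `Helper29_SGE/Main.lean` (GEO without hypotheses).
-/

noncomputable section

namespace Pool.Agent.SGK

open Pool.Agent.SGE

/-! ## Definitions -/

/-- generators of the horizontal order: `u` is the left end of the step of `w`, or `w` is the right end
of the step of `u`, or `u w = a b` -/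
def GX {V : Type} (a b : V) (S : List (V × List V)) (u w : V) : Prop :=
  (u = a ∧ w = b) ∨ (∃ ℓ, (w, ℓ) ∈ S ∧ ℓ.head? = some u) ∨ ∃ ℓ, (u, ℓ) ∈ S ∧ ℓ.getLast? = some w

/-- generators of the vertical order: `u` is in the step of `w` -/
def GY {V : Type} (S : List (V × List V)) (u w : V) : Prop := ∃ ℓ, (w, ℓ) ∈ S ∧ u ∈ ℓ

/-- the horizontal order -/
def HX {V : Type} (a b : V) (S : List (V × List V)) : V → V → Prop :=
  Relation.TransGen (GX a b S)

/-- the vertical order -/
def HY {V : Type} (S : List (V × List V)) : V → V → Prop := Relation.TransGen (GY S)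

/-- good vertices: vertices of `S` which are neither left ends nor right ends -/
def Gd {V : Type} (S : List (V × List V)) (u : V) : Prop :=
  (∃ ℓ, (u, ℓ) ∈ S) ∧ ¬ IsL S u ∧ ¬ IsR S u

/-- the step of `v` covers `u` -/
def Cov {V : Type} (S : List (V × List V)) (v u : V) : Prop :=
  ∃ p mid q, (v, p :: (mid ++ [q])) ∈ S ∧ u ∈ mid

open Classical in
/-- replace `ω` by `v` -/
def sb {V : Type} (ω v u : V) : V := if u = ω then v else u

/-- `S'` is the sequence turned by one third: from `b` to the new vertex `ω` (above `C`), with top `a`. -/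
structure RT {V : Type} (a b ω : V) (C : List V) (S S' : List (V × List V)) : Prop where
  can : Can b ω [b, a, ω] S'
  ord : open Classical in (S'.filter (fun y => ω ∈ y.2)).map Prod.fst = C.dropLast
  hd : ∀ v ℓ, (v, ℓ) ∈ S' → v ≠ a → ∃ ℓ₀, (v, ℓ₀) ∈ S ∧ ℓ₀.getLast? = ℓ.head?
  hda : ∀ ℓ, (a, ℓ) ∈ S' → ℓ.head? = some b
  ls : ∀ v ℓ w, (v, ℓ) ∈ S' → ℓ.getLast? = some w → w = ω ∨ Cov S w v
  vx : ∀ v, (∃ ℓ, (v, ℓ) ∈ S) → ∃ ℓ, (v, ℓ) ∈ S'
  vx' : ∀ v ℓ, (v, ℓ) ∈ S' → v = a ∨ ∃ ℓ₀, (v, ℓ₀) ∈ S
  ed : ∀ v ℓ u, (v, ℓ) ∈ S → u ∈ ℓ → (∃ ℓ', (v, ℓ') ∈ S' ∧ u ∈ ℓ') ∨ ∃ ℓ', (u, ℓ') ∈ S' ∧ v ∈ ℓ'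

/-! ## Part O: orders -/

/-- CNJ (PROVED: `Pool/Agent/Helper2_SGL/CNJ.lean`, `Pool.Agent.SGL.H2.cnj`).  Conjugate orders, in the form
of two numberings `p`, `t` of `U`. -/
def CnjStmt : Prop := ∀ {U B : Type} [Fintype U] [Fintype B] (p t : U → ℤ) (x y : B → ℤ),
  Function.Injective p → Function.Injective t → Function.Injective x → Function.Injective y →
  Fintype.card U = Fintype.card B → ∃ f : U ≃ B, ∀ u v, p u < p v →
    (t u < t v → x (f u) < x (f v)) ∧ (t v < t u → y (f u) < y (f v))

/-- LEX (easy-medium; uses nothing).  Linear extensions with a prescribed order on a subset.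
PROOF.  `R' u w :↔ R u w ∨ ∃ p ∈ U, ∃ q ∈ U, (u = p ∨ R u p) ∧ f p < f q ∧ (q = w ∨ R q w)`.
Transitive: `R, R`: clear; `R u v`, `R' v w` of the second kind with `p, q`: `u = p ∨ R u p` again;
second kind with `p, q` followed by `R`: the same; second, second with `(p, q)`, `(p', q')`: `q = v ∨
R q v` and `v = p' ∨ R v p'`, so `q = p'` or `R q p'`, so `f q ≤ f p'`, and `f p < f q'`: second kind with
`(p, q')`.  Irreflexive: `R u u` no; second kind with `w = u`: `q = u ∨ R q u`, `u = p ∨ R u p`: `q = p` or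
`R q p`: `f q ≤ f p < f q`.  So `R'` (with equality) is a partial order; take a linear extension
(`extend_partialOrder`) and the rank `x v` = number of the elements below `v` (or
`Fintype.orderIsoFinOfCardEq`).  For `u, w ∈ U`: `f u < f w → R' u w → x u < x w`; conversely if not
`f u < f w`: `f w < f u` (so `x w < x u`) or `f u = f w` (so `u = w`). -/
def LexStmt : Prop := ∀ {V : Type} [Fintype V] (R : V → V → Prop),
  (∀ u v w, R u v → R v w → R u w) → (∀ u, ¬ R u u) → ∀ (U : Set V) (f : V → ℝ),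
  (∀ u ∈ U, ∀ w ∈ U, f u = f w → u = w) → (∀ u ∈ U, ∀ w ∈ U, R u w → f u < f w) →
  ∃ x : V → ℕ, Function.Injective x ∧ (∀ v, x v < Fintype.card V) ∧ (∀ u w, R u w → x u < x w) ∧
    ∀ u ∈ U, ∀ w ∈ U, (x u < x w ↔ f u < f w)

/-- CJO (easy-medium; uses CNJ LEX).  Conjugate orders: every permutation is possible.
PROOF.  `R₁ u w := X u w ∨ Y u w` is transitive: `X, X` and `Y, Y` clear; `X u v`, `Y v w`: `u ≠ w` (otherwise
`X u v`, `Y v u`: excluded), so `u, w` are comparable in exactly one order; `X w u` gives `X w v` with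
`Y v w`: excluded; `Y w u` gives `Y v u` with `X u v`: excluded; so `X u w` or `Y u w`.  The same for `Y u v`,
`X v w`.  `R₂ u w := X u w ∨ Y w u` is transitive in the same way.  Both are irreflexive.  LEX with
`U = ∅` (`f = 0`) gives `p` for `R₁` and `t` for `R₂` (injective).  `x`, `y` for CNJ: ranks of `f`, `g` on
`B = Fin k` (LEX with `R i j := f i < f j`).  `p u < p v`, `t u < t v`: `u ≠ v`, comparable: not `Y` in any
direction, not `X v u`: so `X u v`; conversely `X u v → p u < p v ∧ t u < t v`, `Y u v → p u < p v ∧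
t v < t u`. -/
def CjoStmt : Prop := ∀ {U : Type} [Fintype U] (X Y : U → U → Prop) (k : ℕ), Fintype.card U = k →
  (∀ u v w, X u v → X v w → X u w) → (∀ u, ¬ X u u) →
  (∀ u v w, Y u v → Y v w → Y u w) → (∀ u, ¬ Y u u) →
  (∀ u w, u ≠ w → X u w ∨ X w u ∨ Y u w ∨ Y w u) →
  (∀ u w, ¬ ((X u w ∨ X w u) ∧ (Y u w ∨ Y w u))) →
  ∀ f g : Fin k → ℝ, Function.Injective f → Function.Injective g →
  ∃ φ : U ≃ Fin k, (∀ u w, X u w → f (φ u) < f (φ w)) ∧ ∀ u w, Y u w → g (φ u) < g (φ w)

/-! ## Part Z: the two orders of a canonical sequence -/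

/-- KIR (easy; uses INT = `Pool.Agent.SGE.IntStmt`).  The orders are irreflexive.
PROOF.  INT gives `x, y` with `Ord a b S x y`; by induction on `TransGen`: `HX u w → x u < x w` (`ab`, `xl`,
`xr`), `HY u w → y u < y w` (`up`). -/
def KirStmt : Prop := ∀ {V : Type} {a b : V} {C : List V} {S : List (V × List V)}, Can a b C S →
  (∀ u, ¬ HX a b S u u) ∧ ∀ u, ¬ HY S u u

/-- KXM (easy-medium; uses nothing).  The contour is increasing.
PROOF.  Induction on `Can`: `[a, b]`: `GX` (first alternative).  Step: `HX` grows with `S`; `p → v` (second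
alternative) and `v → q` (third alternative) are generators, so the consecutive elements are related and
`HX` is transitive (`List.isChain_iff_pairwise`); between `P ++ [p]` and `q :: Q` the old relations
stay. -/
def KxmStmt : Prop := ∀ {V : Type} {a b : V} {C : List V} {S : List (V × List V)}, Can a b C S →
  C.Pairwise (HX a b S)

/-- STP (medium; uses CB = `Pool.Agent.SGE.CbStmt`, KXM).  What a step does.
PROOF.  Let `S' = (v, p :: (mid ++ [q])) :: S`.  `v` does not occur in `S` (CB for `h`: the elements of the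
lists of `S` are `a`, `b` or first components; `v ≠ a, b`, `hv`), `v ≠ p, q`, `v ∉ mid`.  So the new pairs of
`GX` are `p v` and `v q` only, `v` has no other neighbour in `GX`; the new pairs of `GY` are `m v`,
`m ∈ p :: (mid ++ [q])`, and `v` has no successor in `GY`.
(1) `→`: a path of `GX` for `S'` from `u` to `w` which goes through `v` uses `p, v, q`; `HX a b S p q` by KXM
(contour `P ++ p :: (mid ++ q :: Q)`); formally: by induction on the path from `u` (head induction):
`w ≠ v`, `TransGen u w` implies: `u ≠ v → HX S u w`, and `u = v → q = w ∨ HX S q w`.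
(2), (3): the last (first) generator is `p v` (`v q`); then (1).  (4), (5), (6): in the same way. -/
def StpStmt : Prop := ∀ {V : Type} {a b : V} {P Q mid : List V} {p q v : V}
  {S : List (V × List V)}, Can a b (P ++ p :: (mid ++ q :: Q)) S → v ≠ a → v ≠ b →
  (∀ x ∈ S, x.1 ≠ v) →
  (∀ u w, u ≠ v → w ≠ v → (HX a b ((v, p :: (mid ++ [q])) :: S) u w ↔ HX a b S u w)) ∧
  (∀ u, u ≠ v → (HX a b ((v, p :: (mid ++ [q])) :: S) u v ↔ u = p ∨ HX a b S u p)) ∧
  (∀ w, w ≠ v → (HX a b ((v, p :: (mid ++ [q])) :: S) v w ↔ w = q ∨ HX a b S q w)) ∧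
  (∀ u w, u ≠ v → w ≠ v → (HY ((v, p :: (mid ++ [q])) :: S) u w ↔ HY S u w)) ∧
  (∀ u, HY ((v, p :: (mid ++ [q])) :: S) u v ↔ ∃ m ∈ p :: (mid ++ [q]), u = m ∨ HY S u m) ∧
  ∀ w, ¬ HY ((v, p :: (mid ++ [q])) :: S) v w

/-- ZON (medium-strong; uses CB, KIR, KXM, STP).  The good vertices: every pair is comparable in exactly
one of the two orders.
PROOF.  Induction on `Can`, with the invariants (for the pair `C`, `S`; `z` good for `S`):
(I1) for every `z` with a step there is `m ∈ C` with `z = m ∨ HY S z m`.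
(I2) for `z` good and `u ∈ C`, `u ≠ z`, one of: `HX u z ∧ ¬ HY z u` (left), `HX z u ∧ ¬ HY z u` (right),
`HY z u ∧ ¬ HX z u ∧ ¬ HX u z` (above).
(I3) the statement.
Base: no steps.  Step `S' = (v, p :: (mid ++ [q])) :: S`: a vertex `z ≠ v` which is good for `S'` is good
for `S` and `z ≠ p`, `z ≠ q` (`IsL`, `IsR` of `S'`); the orders do not change on old vertices (STP).
(I1): `z = v`: clear; otherwise the old `m`; if `m ∈ mid`: `HY S' z v` (STP (5)).
(I2) for `z = v`: `u ∈ P ++ p :: q :: Q`: `HX u v` or `HX v u` by KXM for `S'`, `¬ HY v u` (STP (6)).  For `z ≠ v`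
and `u = v` (for old `u`: nothing changes):
(a) `q` is left: `HX v z` (STP (3)).  `¬ HY z v`: by STP (5) otherwise `z = m ∨ HY S z m` with `m = q` or `m`
before `q` in the contour, so `HX m z` (KXM, transitivity): `z = m` contradicts KIR; `m ≠ z` is not right
and not above (`HX z m`, `HX m z` contradicts KIR), so left, so `¬ HY z m`.
(b) `p` is right: the same with `HX z v`.
(c) otherwise `p` is left or above, `q` is right or above.  `HY z v`: if `p` or `q` is above: STP (5).  If
`p` is left and `q` is right: let `m ∈ C` be as in (I1); if `m = p` or `m` is before `p`: `HX m z`, a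
contradiction as in (a); if `m = q` or after `q`: in the same way; so `m ∈ mid`: STP (5).  `¬ HX z v`: by
STP (2) otherwise `z = p` (no) or `HX S z p`: contradicts left (KIR) and above.  `¬ HX v z`: STP (3), in
the same way.
(I3) for a pair `z, v`: that is (a), (b), (c) together with `¬ HY v z` (STP (6)); in case (a) `¬ HX z v` by
KIR for `S'`. -/
def ZonStmt : Prop := ∀ {V : Type} {a b : V} {C : List V} {S : List (V × List V)}, Can a b C S →
  ∀ z w, z ≠ w → Gd S z → Gd S w →
    (HX a b S z w ∨ HX a b S w z ∨ HY S z w ∨ HY S w z) ∧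
    ¬ ((HX a b S z w ∨ HX a b S w z) ∧ (HY S z w ∨ HY S w z))

/-! ## Part R: rotation -/

/-- MAP (easy; uses nothing).  Canonical sequences and injective maps.
PROOF.  Induction on `Can` (`List.map_append`, ...). -/
def MapStmt : Prop := ∀ {V W : Type} (e : V → W), Function.Injective e → ∀ {a b : V} {C : List V}
  {S : List (V × List V)}, Can a b C S →
  Can (e a) (e b) (C.map e) (S.map fun y => (e y.1, y.2.map e))

/-- DET (easy-medium; uses CB).  The contour is determined by the sequence.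
PROOF.  Induction on `S` (inversion of `Can`): both contours come from contours for the tail, which are
equal by induction, and a list without repetition has only one decomposition
`P ++ p :: (mid ++ q :: Q)` with given `p :: (mid ++ [q])` (the position of `p`). -/
def DetStmt : Prop := ∀ {V : Type} {a b : V} {C C' : List V} {S : List (V × List V)},
  Can a b C S → Can a b C' S → C = C'

/-- RST (easy-medium; uses DET).  Exchange of the lower part of a sequence.
PROOF.  Induction on `T`, inversion of `Can`; base: DET. -/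
def RstStmt : Prop := ∀ {V : Type} {a b : V} {C₁ : List V} {S₁ S₂ : List (V × List V)},
  Can a b C₁ S₁ → Can a b C₁ S₂ → ∀ (T : List (V × List V)) (C : List V), Can a b C (T ++ S₁) →
  (∀ x ∈ T, ∀ y ∈ S₂, x.1 ≠ y.1) → Can a b C (T ++ S₂)

/-- SUB (medium; uses CB, DET).  A new vertex `v` between the last vertex `z` and `ω`: in the steps after
`S₁` the vertex `ω` is replaced by `v`.
PROOF.  Induction on `T`, for all `C₂`.  `T = []`: `C₂ = D ++ [z, ω]` (DET), `ω ∉ D`, `ω ≠ z` (CB), so
`C₂.map (sb ω v) ++ [ω] = D ++ [z, v, ω]`: the step `(v, [z, ω])` (`mid = []`, `Q = []`).  Step `(x, p ::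
(mid ++ [q]))` of `T`: by inversion `C₂ = P ++ p :: x :: q :: Q`, the contour before is `P ++ p :: (mid ++
q :: Q)`; by induction `Can b ω ((P ++ p :: (mid ++ q :: Q)).map (sb ω v) ++ [ω]) ..`; apply `Can.step` with
`P.map .., sb p, mid.map .., sb q, Q.map .. ++ [ω]` and `x` (`x ≠ ω`, so `sb ω v x = x`; `x ≠ b`; `x` is not a
first component: `x ≠ v` and CB for `T ++ S₁`). -/
def SubStmt : Prop := ∀ {V : Type} {b ω v z : V} {D : List V} {S₁ : List (V × List V)},
  Can b ω (D ++ [z, ω]) S₁ → v ≠ b → v ≠ ω → (∀ x ∈ S₁, x.1 ≠ v) →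
  ∀ (T : List (V × List V)) (C₂ : List V), Can b ω C₂ (T ++ S₁) → (∀ x ∈ T, x.1 ≠ v) →
  Can b ω (C₂.map (sb ω v) ++ [ω])
    (T.map (fun y => (y.1, y.2.map (sb ω v))) ++ (v, [z, ω]) :: S₁)

/-- ROT (medium-strong; uses CB, DET, RST, SUB).  Rotation.
PROOF.  Induction on `Can a b C S`.  Base: `S' = [(a, [b, ω])]`.
Step: `C = P ++ p :: (mid ++ q :: Q)`, `C' = P ++ p :: v :: q :: Q`, new `S₊ = (v, p :: (mid ++ [q])) :: S`;
let `S'` be the rotated sequence of `S`.
(1) In a contour of a sequence `Can b ω ..` the last element is `ω` and it occurs once (CB); so a step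
whose list contains `ω` has the form `(u, p' :: (mid' ++ [ω]))`, `ω ∉ p' :: mid'`, and the contour after it is
`P' ++ [p', u, ω]`.
(2) By `ord` the steps of `S'` whose list contains `ω` are, from left to right in the list `S'`, those of
the vertices of `C.dropLast`.  So `S' = T₄ ++ (p, ℓ) :: (T ++ S₁)`, where the `ω`-steps of `T₄` are those of
`P`, the `ω`-steps of `T` are those of `mid`, and `S₁ = []` if `Q = []` (then `q = b`, contour `[b, ω] = [] ++
[q, ω]`), and otherwise `S₁` starts with the step of `q` (contour `D ++ [q, ω]` by (1)).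
(`List.filter_eq_append_iff`, `List.filter_eq_cons_iff`; if `Q ≠ []`: `C.dropLast = P ++ p :: (mid ++ q ::
Q.dropLast)`.)
(3) `ℓ = p' :: (mid' ++ [ω])`, the contour for `T ++ S₁` is `P' ++ p' :: (mid' ++ [ω])` and the contour after the
step of `p` is `P' ++ [p', p, ω]` (inversion).  SUB: `P' ++ p' :: (mid' ++ [v, ω])` is a contour for
`T' ++ (v, [q, ω]) :: S₁`, `T' = T.map ..`.  The step `(p, p' :: ((mid' ++ [v]) ++ [ω]))` is possible and leads
to the contour `P' ++ [p', p, ω]`.  RST: `S'₊ = T₄ ++ (p, p' :: ((mid' ++ [v]) ++ [ω])) :: (T' ++ (v, [q, ω]) ::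
S₁)` is a sequence with contour `[b, a, ω]`.  (`v` is not a first component of `S'`: `vx'`.)
(4) `ord`: no list of `T'` contains `ω`; so the `ω`-steps are `P, p, v, q, Q.dropLast` (or `P, p, v`).
`hd`: the heads of the lists of `T'` are the old ones (the head is not `ω`), `p`: the old head, `v`: `q =
(p :: (mid ++ [q])).getLast?`.  `hda`: the same (if `p = a`: the old head).  `ls`: lists of `T'` which
contained `ω` belong to `u ∈ mid`: the new last element is `v`, `Cov S₊ v u`; the others: the old last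
element (`≠ ω`) and `Cov S w u → Cov S₊ w u`.  `vx`, `vx'`: clear.  `ed`: new pairs: `(v, p)`: `v` is in the new
list of `p`; `(v, u)`, `u ∈ mid`: `v` is in the new list of `u`; `(v, q)`: `q ∈ [q, ω]`; old pairs: they do
not contain `ω` (`ω` does not occur in `S`: `hω`, `ω ≠ a, b`, CB), so `sb` changes nothing. -/
def RotStmt : Prop := ∀ {V : Type} {a b ω : V} {C : List V} {S : List (V × List V)}, Can a b C S →
  ω ≠ a → ω ≠ b → (∀ x ∈ S, x.1 ≠ ω) → ∃ S', RT a b ω C S S'

/-! ## Part N: the number of good vertices -/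

open Classical in
/-- C3A (medium-strong; uses CB; compare `Helper25_SGE/Cou.lean`).  Counting in rightmost sequences.
PROOF.  For `RCan a b C S`, `S ≠ []`, let `nL, nR` be the numbers of the steps `y` of `S` with `IsL S y.1`,
`IsR S y.1`, `n₂` the number of the steps with a list of length 2 (`mid = []`) and `nK` the number of the
steps `y` with `IsR S y.1`, `y.1 ∉ C`.  Claim: there is `D` with (i) `nL + nR + 1 ≤ n₂ + D`, (ii) `n₂ + D ≤
S.length`, (iii) `D ≤ nL`, (iv) `D ≤ nK`; and (v) for consecutive elements `w, w'` of `C`: `E2` of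
`Cou.lean` with exactly one: either `¬ IsL S w ∧ w ≠ a ∧ IsR S w' `(or `w' = b`) or `¬ IsR S w' ∧ w' ≠ b ∧
IsL S w` (or `w = a`).
Step `(v, p :: (mid ++ [q]))` (`S ≠ []`): `nL` grows by `[¬ IsL S p ∧ p ≠ a]` (`v` is not a left end, `p ≠ a` is a
vertex of a step), `nR` by `[¬ IsR S q ∧ q ≠ b]`, `n₂` by `[mid = []]`.  If `mid = []`: `p, q` are consecutive, by
(v) exactly one of the two numbers is `1`: `D` stays; (iii), (iv) stay true (`nL`, `nK` do not decrease:
the covered vertices stay covered).  If `mid ≠ []`: `q` is the right end of the last element of `mid` (`hs`), so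
`nR` does not grow; if `nL` grows (`¬ IsL S p`, `p ≠ a`): by (v) for `p, m` (`m` = first element of `mid`):
`IsR S m`, `m ≠ b`; take `D + 1`; (iv): `m` becomes covered; if `nL` does not grow: `D` stays.  (v) for the new
pairs: `p, v`: `¬ IsR v`, `v ≠ b`, `IsL p`; `v, q`: `¬ IsL v`, `v ≠ a`, `IsR q`; the other pairs do not contain
`p` as a left or `q` as a right element, so nothing changes.
First step `(v, [a, b])` (`C = [a, b]`, inversion): `nL = nR = 0`, `n₂ = 1`, `D = 0`. -/
def C3aStmt : Prop := ∀ {V : Type} {a b : V} {C : List V} {S : List (V × List V)}, RCan a b C S →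
  S ≠ [] → ∃ D : ℕ,
    (S.filter fun y => IsL S y.1).length + (S.filter fun y => IsR S y.1).length + 1 ≤
      (S.filter fun y => y.2.length = 2).length + D ∧
    (S.filter fun y => y.2.length = 2).length + D ≤ S.length ∧
    D ≤ (S.filter fun y => IsL S y.1).length ∧ D ≤ (S.filter fun y => IsR S y.1).length

open Classical in
/-- CO3 (medium; uses CB, C3A).  The number of good vertices of the three rotations.
PROOF.  `N = S.length`, numbers `nL, nR, n₂, D` of C3A.  Adding (ii), (iii), (iv) and using (i): `3 D + n₂ ≤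
N + nL + nR ≤ N + n₂ + D - 1`, so `2 D + 1 ≤ N`.  For a step `y` let `z y = [¬ IsL] + [¬ IsR] + [length = 2]`.
Sum of `z` = `(N - nL) + (N - nR) + n₂ ≥ 2 N - (n₂ + D - 1) + n₂ = 2 N + 1 - D`.  Pointwise
`z y ≤ 1 + [¬ IsL ∧ ¬ IsR] + [¬ IsR ∧ length = 2] + [¬ IsL ∧ length = 2]`, so the three numbers `F₁, F₂, F₃`
(with `c`) satisfy `2 (F₁ + F₂ + F₃) ≥ 2 (N + 1 - D) ≥ 2 N + 2 - (N - 1) = N + 3`.  The first step of the list
`S` is that of `c`, with the contour `a :: (mid ++ [b])` before it (inversion; `P = Q = []`) and `mid ≠ []`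
(otherwise the rest of `S` is empty: its contour is `[a, b]`, compare the end of `Cou.lean`); all
other first components are different from `c` (CB).  So `c` is counted in `F₁` only, once, and without
`c`: `2 (F₁ + F₂ + F₃) ≥ N + 1`. -/
def Co3Stmt : Prop := ∀ {V : Type} {a b c : V} {S : List (V × List V)},
  RCan a b [a, c, b] S → 2 ≤ S.length → S.length + 1 ≤
    2 * ((S.filter fun y => y.1 ≠ c ∧ ¬ IsL S y.1 ∧ ¬ IsR S y.1).length +
      (S.filter fun y => y.1 ≠ c ∧ ¬ IsR S y.1 ∧ y.2.length = 2).length +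
      (S.filter fun y => y.1 ≠ c ∧ ¬ IsL S y.1 ∧ y.2.length = 2).length)

/-! ## Part F: assembly -/

/-- the vertex type of the assembly -/
abbrev W (n : ℕ) : Type := Option (Fin n ⊕ Fin 3)

/-- the vertex `v` of the graph -/
def ev {n : ℕ} (v : Fin n) : W n := some (Sum.inl v)

/-- SEL (medium; uses GEO = `Pool.Agent.SGE.GeoStmt`, CB, MIR = `Pool.Agent.SGE.MirStmt`, MAP, ROT, CO3).
PROOF.  `n = 0`: then `k = 0`: `A = ∅` with the sequence of GEO (mapped by `some`).  `n > 0`: GEO gives `S₀`; all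
`n + 1` inner vertices (`Sum.inl v` and `Sum.inr 2`) have steps, different (CB): `S₀.length ≥ n + 1 ≥ 2`.
CO3: `n + 2 ≤ 2 (F₁ + F₂ + F₃)`; if all `Fᵢ ≤ k - 1` then `6 k ≥ n + 8`: contradiction.  The vertices counted
are of the form `Sum.inl v` (first components are not `a, b` by CB and `≠ c`) and different, so there is
`A : Finset (Fin n)` with `k` elements of one of the three kinds.
Let `S = S₀` mapped by `some` (MAP; `IsL`, `IsR`, lengths are preserved).
Kind 1 (`¬ IsL, ¬ IsR`): take `S`.
Kind 2 (`¬ IsR`, `length = 2`): ROT with `ω = none`, `C = [a, c, b]`: `S'`.  `IsL S' u` (`u` = `ev v`): a step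
`(w, ℓ) ∈ S'` with `ℓ.head? = some u`; `w = a`: `u = b` by `hda`, no; `w ≠ a`: `hd`: `IsR S u`, no.  `IsR S' u`: `ls`:
`u = ω` (no) or `Cov S u w`: the list of `u` has length `≥ 3` (the step of `u` is unique by CB), no.
Edges: `ed`.
Kind 3 (`¬ IsL`, `length = 2`): MIR for `S` (contour `[b, c, a]`, `IsL` and `IsR` are exchanged), then as
kind 2. -/
def SelStmt : Prop := ∀ {n k : ℕ}, k ≤ n → 6 * k ≤ n + 7 → ∀ G : SimpleGraph (Fin n),
  (∃ f, Draw G f) → ∃ (a b : W n) (C : List (W n)) (S : List (W n × List (W n))), Can a b C S ∧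
    (∀ v : Fin n, ∃ ℓ, (ev v, ℓ) ∈ S) ∧
    (∀ u w : Fin n, G.Adj u w → (∃ ℓ, (ev u, ℓ) ∈ S ∧ ev w ∈ ℓ) ∨ ∃ ℓ, (ev w, ℓ) ∈ S ∧ ev u ∈ ℓ) ∧
    ∃ A : Finset (Fin n), A.card = k ∧ ∀ u ∈ A, Gd S (ev u)

/-- the final theorem -/
def MainStmt : Prop := ∀ n k : ℕ, k ≤ n → 6 * k ≤ n + 7 → ∀ (G₁ : SimpleGraph (Fin n))
  (G₂ : SimpleGraph (Fin k)), (∃ f, Draw G₁ f) → (∃ f, Draw G₂ f) →
  ∃ P : Finset (ℝ × ℝ), P.card = n ∧ (∃ f, Draw G₁ f ∧ ∀ u, f u ∈ P) ∧ ∃ f, Draw G₂ f ∧ ∀ u, f u ∈ P

/-- FIN (medium-strong; uses GEO INT NCX EXP of SGE and SEL KIR ZON CJO LEX; compare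
`Helper29_SGE/Ord.lean`, `Helper29_SGE/Uni.lean`).
PROOF.  (1) SEL for `G₁`: `a b C S A`.  `U = {u // u ∈ A}`, `X u w := HX a b S (ev u) (ev w)`, `Y u w := HY S
(ev u) (ev w)`: transitive (`TransGen`), irreflexive (KIR), conjugate (ZON).
(2) GEO and INT for `G₂`: `x₂ y₂ : Fin k → ℝ` (restricted to the vertices `Sum.inl v`) injective with
`NC G₂ x₂ y₂` (NCX for the edges).
(3) CJO with `f = x₂`, `g = y₂`: `φ : U ≃ Fin k`.
(4) LEX with `V = W n`, `R = HX a b S`, the set of the `ev u`, `u ∈ A`, and a function `f` with `f (ev u) =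
x₂ (φ u)`: `x : W n → ℕ`; in the same way `y` with `HY S`, `y₂`.
(5) `Ord a b S (fun v => (x v : ℝ)) (fun v => (y v : ℝ))`: the generators are in `HX`, `HY`.  NCX: `NC G₁
(x ∘ ev) (y ∘ ev)`.  `NC G₂ (fun i => x (ev (φ.symm i))) (fun i => y (ev (φ.symm i)))`: the same comparisons
as `x₂, y₂` (LEX).
(6) EXP with the bound `card (W n)`, `K = 8 * (card (W n) + 1)`: both drawings are given by
`pt K x y (ev ·)`.  `P` = image of `Fin n` (`n` points, injective); `pt K .. (φ.symm i)` is in `P`. -/
def FinStmt : Prop := MainStmt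

end Pool.Agent.SGK
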